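import Pool.Agent.Helper38.FC.Main

/-!
An unconditional consistency theorem for Q1, in Boolean-valued form. `Val B` is the value in the
complete Boolean algebra `B` of the sentence: there is an ultrafilter U on the natural numbers with
omega^omega Tukey below U and U strictly Tukey below its Fubini square.
-/

set_option autoImplicit false

namespace Pool.Agent.Results.MP_a58811_lc.ForcingExistence

open Pool.Agent.Helper38.FC

/-- The value in `Prop` is the statement itself (the frozen statement S15159), and there is a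
complete Boolean algebra with at least two elements in which the value is the top element. -/
theorem result :
    (Val Prop ↔ ∃ U : Ultrafilter ℕ,
      (∃ f : (ℕ → ℕ) → Set ℕ, (∀ g, f g ∈ U) ∧
          ∀ B ∈ U, ∃ h : ℕ → ℕ, ∀ g, B ⊆ f g → g ≤ h) ∧
      (∃ f : Set ℕ → Set (ℕ × ℕ),
          (∀ A ∈ U, {n | {m | (n, m) ∈ f A} ∈ U} ∈ U) ∧
          ∀ B : Set (ℕ × ℕ), {n | {m | (n, m) ∈ B} ∈ U} ∈ U →
            ∃ C ∈ U, ∀ A ∈ U, B ⊆ f A → C ⊆ A) ∧
      ¬ (∃ f : Set (ℕ × ℕ) → Set ℕ,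
          (∀ A : Set (ℕ × ℕ), {n | {m | (n, m) ∈ A} ∈ U} ∈ U → f A ∈ U) ∧
          ∀ B ∈ U, ∃ C : Set (ℕ × ℕ), {n | {m | (n, m) ∈ C} ∈ U} ∈ U ∧
            ∀ A : Set (ℕ × ℕ), {n | {m | (n, m) ∈ A} ∈ U} ∈ U → B ⊆ f A → C ⊆ A)) ∧
    ∃ (B : Type) (_ : CompleteBooleanAlgebra B), (⊥ : B) ≠ ⊤ ∧ Val B = ⊤ :=
  ⟨val_prop, exists_algebra⟩

end Pool.Agent.Results.MP_a58811_lc.ForcingExistence
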